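import Mathlib

set_option autoImplicit false

namespace Pool.Agent.Y717.Bil

open scoped BigOperators

variable {E : Type*} [NormedAddCommGroup E] [InnerProductSpace ℝ E]

/-- double sum identity -/
theorem double_sum {ι : Type*} [Fintype ι] (N : ι → ℝ) (U c : ι → E)
    (h0 : ∑ j, N j • U j = 0) :
    ∑ j, ∑ k, N j * N k * inner ℝ (U j - U k) (c j - c k)
      = 2 * ((∑ j, N j) * ∑ j, N j * inner ℝ (U j) (c j)) := by
  have e1 : ∀ j k, N j * N k * inner ℝ (U j - U k) (c j - c k)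
      = N k * (N j * inner ℝ (U j) (c j)) + N j * (N k * inner ℝ (U k) (c k))
        - inner ℝ (N j • U j) (N k • c k) - inner ℝ (N k • U k) (N j • c j) := by
    intro j k
    rw [inner_sub_left, inner_sub_right, inner_sub_right, inner_smul_left, inner_smul_right,
      inner_smul_left, inner_smul_right]
    simp only [conj_trivial]
    ring
  simp_rw [e1, Finset.sum_sub_distrib, Finset.sum_add_distrib]
  have e2 : ∑ j, ∑ k, N k * (N j * inner ℝ (U j) (c j))
      = (∑ j, N j) * ∑ j, N j * inner ℝ (U j) (c j) := by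
    rw [Finset.sum_mul_sum, Finset.sum_comm]
  have e3 : ∑ j, ∑ k, N j * (N k * inner ℝ (U k) (c k))
      = (∑ j, N j) * ∑ j, N j * inner ℝ (U j) (c j) := by
    rw [Finset.sum_mul_sum]
  have e4 : ∑ j, ∑ k, inner ℝ (N j • U j) (N k • c k) = 0 := by
    simp_rw [← inner_sum]
    rw [← sum_inner, h0, inner_zero_left]
  have e5 : ∑ j, ∑ k, inner ℝ (N k • U k) (N j • c j) = 0 := by
    simp_rw [← sum_inner]
    rw [h0]; simp
  rw [e2, e3, e4, e5]; ring

theorem four_ineq {ι : Type*} [Fintype ι] [DecidableEq ι] (N : ι → ℝ) (U c : ι → E)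
    (hN : ∀ j, 0 ≤ N j) (hU : ∀ j, N j * ‖U j‖ ^ 2 = N j) (h0 : ∑ j, N j • U j = 0)
    {δ : ℝ} (hδ0 : 0 ≤ δ) (hδ1 : δ ≤ 1) (hd : ∀ i j, ‖c i - c j‖ ≤ δ)
    (hT : 4 ≤ ∑ j, N j) (hsq : 8 ≤ ∑ j, N j ^ 2) :
    4 - 2 * δ ≤ (∑ j, N j) + ∑ j, N j * inner ℝ (U j) (c j) ∧
    (4 < ∑ j, N j → 4 - 2 * δ < (∑ j, N j) + ∑ j, N j * inner ℝ (U j) (c j)) := by
  set T : ℝ := ∑ j, N j with hTdef
  set Q : ℝ := ∑ j, N j ^ 2 with hQdef
  set s : ℝ := (T - 2) / T with hs
  have hTpos : 0 < T := by linarith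
  have hspos : 0 < s := by rw [hs]; apply div_pos <;> linarith
  -- pointwise bound
  have hpt : ∀ j k, - (δ / 2) * (s * ‖U j - U k‖ ^ 2 + (if j = k then 0 else 1) / s)
      ≤ inner ℝ (U j - U k) (c j - c k) := by
    intro j k
    by_cases hjk : j = k
    · simp [hjk]
    · simp only [hjk, if_false]
      have h1 : - (‖U j - U k‖ * ‖c j - c k‖) ≤ inner ℝ (U j - U k) (c j - c k) := by
        have := abs_real_inner_le_norm (U j - U k) (c j - c k)
        linarith [neg_abs_le (inner ℝ (U j - U k) (c j - c k))]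
      have h2 : ‖U j - U k‖ * ‖c j - c k‖ ≤ ‖U j - U k‖ * δ :=
        mul_le_mul_of_nonneg_left (hd j k) (norm_nonneg _)
      have h3 : 2 * ‖U j - U k‖ ≤ s * ‖U j - U k‖ ^ 2 + 1 / s := by
        have h4 : 0 ≤ (s * ‖U j - U k‖ - 1) ^ 2 / s := by positivity
        have h5 : (s * ‖U j - U k‖ - 1) ^ 2 / s
            = s * ‖U j - U k‖ ^ 2 + 1 / s - 2 * ‖U j - U k‖ := by
          field_simp; ring
        linarith
      nlinarith [norm_nonneg (U j - U k)]
  have hsum1 : ∑ j, ∑ k, N j * N k * (- (δ / 2) * (s * ‖U j - U k‖ ^ 2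
      + (if j = k then 0 else 1) / s)) ≤ ∑ j, ∑ k, N j * N k * inner ℝ (U j - U k) (c j - c k) := by
    apply Finset.sum_le_sum; intro j _
    apply Finset.sum_le_sum; intro k _
    exact mul_le_mul_of_nonneg_left (hpt j k) (mul_nonneg (hN j) (hN k))
  have hUU : ∑ j, ∑ k, N j * N k * ‖U j - U k‖ ^ 2 = 2 * (T * T) := by
    have := double_sum N U U h0
    simp_rw [real_inner_self_eq_norm_sq] at this
    rw [this]
    have h6 : ∑ j, N j * ‖U j‖ ^ 2 = T := by
      rw [hTdef]; exact Finset.sum_congr rfl (fun j _ => hU j)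
    rw [h6]
  have hoff : ∑ j, ∑ k, N j * N k * (if j = k then (0 : ℝ) else 1) = T ^ 2 - Q := by
    have h7 : ∀ j k, N j * N k * (if j = k then (0 : ℝ) else 1)
        = N j * N k - (if j = k then N j * N k else 0) := by
      intro j k; split_ifs <;> ring
    simp_rw [h7, Finset.sum_sub_distrib]
    simp only [Finset.sum_ite_eq, Finset.mem_univ, if_true]
    rw [← Finset.sum_mul_sum, hQdef, hTdef]
    simp [sq]
  have hlhs : ∑ j, ∑ k, N j * N k * (- (δ / 2) * (s * ‖U j - U k‖ ^ 2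
      + (if j = k then 0 else 1) / s)) = - (δ / 2) * (s * (2 * (T * T)) + (T ^ 2 - Q) / s) := by
    rw [← hUU, ← hoff, Finset.mul_sum, Finset.sum_div, ← Finset.sum_add_distrib, Finset.mul_sum]
    apply Finset.sum_congr rfl; intro j _
    rw [Finset.mul_sum, Finset.sum_div, ← Finset.sum_add_distrib, Finset.mul_sum]
    apply Finset.sum_congr rfl; intro k _
    ring
  rw [hlhs, double_sum N U c h0] at hsum1
  set X : ℝ := ∑ j, N j * inner ℝ (U j) (c j) with hX
  -- now real algebra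
  have hs' : s * T = T - 2 := by rw [hs]; field_simp
  have hA : s * (2 * (T * T)) = 2 * T * (T - 2) := by
    calc s * (2 * (T * T)) = 2 * T * (s * T) := by ring
      _ = _ := by rw [hs']
  have hB : (T ^ 2 - Q) / s ≤ T * ((T ^ 2 - 8) / (T - 2)) := by
    have h8 : (T ^ 2 - Q) / s ≤ (T ^ 2 - 8) / s := by
      apply div_le_div_of_nonneg_right _ hspos.le
      linarith
    have h9 : (T ^ 2 - 8) / s = T * ((T ^ 2 - 8) / (T - 2)) := by
      rw [hs]
      have : T - 2 ≠ 0 := by linarith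
      field_simp
    linarith
  set Y : ℝ := (T ^ 2 - 8) / (T - 2) with hY
  have hY2 : Y * (T - 2) = T ^ 2 - 8 := by
    rw [hY]; have : T - 2 ≠ 0 := by linarith
    field_simp
  have hfin : - (δ / 2) * (2 * T * (T - 2) + T * Y) ≤ 2 * (T * X) := by
    have : - (δ / 2) * (2 * T * (T - 2) + T * Y)
        ≤ - (δ / 2) * (s * (2 * (T * T)) + (T ^ 2 - Q) / s) := by
      rw [hA]
      nlinarith
    linarith
  have hfin2 : - (δ / 4) * (2 * (T - 2) + Y) ≤ X := by
    have h10 : (2 * T) * (- (δ / 4) * (2 * (T - 2) + Y)) ≤ (2 * T) * X := by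
      calc (2 * T) * (- (δ / 4) * (2 * (T - 2) + Y))
          = - (δ / 2) * (2 * T * (T - 2) + T * Y) := by ring
        _ ≤ 2 * (T * X) := hfin
        _ = (2 * T) * X := by ring
    exact le_of_mul_le_mul_left h10 (by linarith)
  have hYle : Y ≤ 2 * (T - 2) := by
    have h11 : Y * (T - 2) ≤ 2 * (T - 2) * (T - 2) := by
      rw [hY2]; nlinarith [sq_nonneg (T - 4)]
    exact le_of_mul_le_mul_right h11 (by linarith)
  constructor
  · have h12 : 0 ≤ δ * (2 * (T - 2) - Y) := mul_nonneg hδ0 (by linarith)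
    have h13 : 0 ≤ (1 - δ) * (T - 4) := mul_nonneg (by linarith) (by linarith)
    nlinarith
  · intro hT4
    have hYlt : Y < 2 * (T - 2) := by
      have h11 : Y * (T - 2) < 2 * (T - 2) * (T - 2) := by
        rw [hY2]; nlinarith [mul_pos (sub_pos.mpr hT4) (sub_pos.mpr hT4)]
      exact lt_of_mul_lt_mul_right h11 (by linarith)
    rcases eq_or_lt_of_le hδ1 with h1 | h1
    · subst h1
      nlinarith
    · have h12 : 0 ≤ δ * (2 * (T - 2) - Y) := mul_nonneg hδ0 (by linarith)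
      have h13 : 0 < (1 - δ) * (T - 4) := mul_pos (by linarith) (by linarith)
      nlinarith

end Pool.Agent.Y717.Bil
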