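import Mathlib

set_option autoImplicit false

namespace Pool.Agent.Y717.Bil

open scoped BigOperators

variable {E : Type*} [NormedAddCommGroup E] [InnerProductSpace ℝ E]

/-- A closed polygon on the unit sphere with `0` in its convex hull contains a (possibly
degenerate) closed quadrilateral in cyclic order with `⟨v_b + v_d, v_0 + v_k⟩ ≤ 0`. -/
theorem exists_quad {v : ℕ → E} {n : ℕ} (hv : ∀ k, ‖v k‖ = 1) (hper : v n = v 0)
    (hz : ∀ z : E, ∃ i, i < n ∧ inner ℝ (v i) z ≤ 0) :
    ∃ b k d, b ≤ k ∧ k ≤ d ∧ d ≤ n ∧ inner ℝ (v b + v d) (v 0 + v k) ≤ 0 := by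
  classical
  let Pk : ℕ → Prop := fun k => ∃ b, b ≤ k ∧ inner ℝ (v b) (v 0 + v k) ≤ 0
  have hPn : Pk n := by
    obtain ⟨i, hi, h⟩ := hz (v 0 + v n)
    exact ⟨i, hi.le, h⟩
  have hex : ∃ k, Pk k := ⟨n, hPn⟩
  have hkn : Nat.find hex ≤ n := Nat.find_min' hex hPn
  have hk : Pk (Nat.find hex) := Nat.find_spec hex
  have hmin : ∀ m, m < Nat.find hex → ¬ Pk m := fun m hm => Nat.find_min hex hm
  generalize Nat.find hex = k at hkn hk hmin
  have hk0 : k ≠ 0 := by
    rintro rfl
    obtain ⟨b, hb, h⟩ := hk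
    have : b = 0 := by omega
    subst this
    rw [inner_add_right, real_inner_self_eq_norm_sq, hv] at h
    norm_num at h
  obtain ⟨m, rfl⟩ := Nat.exists_eq_succ_of_ne_zero hk0
  rw [Nat.succ_eq_add_one] at *
  have hm : ∀ b, b ≤ m → 0 < inner ℝ (v b) (v 0 + v m) := by
    intro b hb
    by_contra hcon
    exact hmin m (by omega) ⟨b, hb, not_lt.mp hcon⟩
  let z : ℝ → E := fun t => v 0 + ((1 - t) • v m + t • v (m + 1))
  have hzc : Continuous z := by
    have : Continuous fun t : ℝ => v 0 + ((1 - t) • v m + t • v (m + 1)) := by fun_prop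
    exact this
  let A : Set ℝ := ⋃ b ∈ Finset.range (m + 1), {t | inner ℝ (v b) (z t) ≤ 0}
  let B : Set ℝ := ⋃ d ∈ Finset.Icc (m + 1) n, {t | inner ℝ (v d) (z t) ≤ 0}
  have hcl : ∀ b : ℕ, IsClosed {t : ℝ | inner ℝ (v b) (z t) ≤ 0} := by
    intro b
    apply isClosed_le
    · exact Continuous.inner continuous_const hzc
    · exact continuous_const
  have hA : IsClosed A := by
    apply Set.Finite.isClosed_biUnion (Finset.finite_toSet _)
    intro b _; exact hcl b
  have hB : IsClosed B := by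
    apply Set.Finite.isClosed_biUnion (Finset.finite_toSet _)
    intro b _; exact hcl b
  have hcov : ∀ t : ℝ, t ∈ A ∪ B := by
    intro t
    obtain ⟨i, hi, h⟩ := hz (z t)
    by_cases him : i ≤ m
    · left
      simp only [A, Set.mem_iUnion, Finset.mem_range, Set.mem_setOf_eq]
      exact ⟨i, by omega, h⟩
    · right
      simp only [B, Set.mem_iUnion, Finset.mem_Icc, Set.mem_setOf_eq]
      exact ⟨i, ⟨by omega, by omega⟩, h⟩
  by_cases hAne : (Set.Icc (0 : ℝ) 1 ∩ A).Nonempty
  · have hBne : (Set.Icc (0 : ℝ) 1 ∩ B).Nonempty := by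
      refine ⟨0, ⟨le_refl _, zero_le_one⟩, ?_⟩
      rcases hcov 0 with h | h
      · exfalso
        simp only [A, Set.mem_iUnion, Finset.mem_range, Set.mem_setOf_eq] at h
        obtain ⟨b, hb, h⟩ := h
        have h0 : z 0 = v 0 + v m := by simp [z]
        rw [h0] at h
        linarith [hm b (by omega)]
      · exact h
    obtain ⟨t, ht, htA, htB⟩ := isPreconnected_closed_iff.mp isPreconnected_Icc A B hA hB
      (fun t _ => hcov t) hAne hBne
    simp only [A, Set.mem_iUnion, Finset.mem_range, Set.mem_setOf_eq] at htA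
    simp only [B, Set.mem_iUnion, Finset.mem_Icc, Set.mem_setOf_eq] at htB
    obtain ⟨b, hb, h1⟩ := htA
    obtain ⟨d, ⟨hd1, hd2⟩, h2⟩ := htB
    have hsum : (1 - t) * inner ℝ (v b + v d) (v 0 + v m)
        + t * inner ℝ (v b + v d) (v 0 + v (m + 1)) ≤ 0 := by
      have : (1 - t) * inner ℝ (v b + v d) (v 0 + v m)
        + t * inner ℝ (v b + v d) (v 0 + v (m + 1)) = inner ℝ (v b) (z t) + inner ℝ (v d) (z t) := by
        simp only [z, inner_add_left, inner_add_right, inner_smul_right]
        ring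
      rw [this]; linarith
    by_cases hX : inner ℝ (v b + v d) (v 0 + v m) ≤ 0
    · exact ⟨b, m, d, by omega, by omega, hd2, hX⟩
    · refine ⟨b, m + 1, d, by omega, hd1, hd2, ?_⟩
      by_contra hY
      push Not at hX hY
      obtain ⟨ht0, ht1⟩ := ht
      rcases eq_or_lt_of_le ht0 with h0 | h0
      · rw [← h0] at hsum; simp at hsum; linarith
      · have : 0 < t * inner ℝ (v b + v d) (v 0 + v (m + 1)) := mul_pos h0 hY
        have : 0 ≤ (1 - t) * inner ℝ (v b + v d) (v 0 + v m) :=
          mul_nonneg (by linarith) hX.le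
        linarith
  · have h1 : ∀ b, b ≤ m → 0 < inner ℝ (v b) (v 0 + v (m + 1)) := by
      intro b hb
      by_contra hcon
      apply hAne
      refine ⟨1, ⟨zero_le_one, le_refl _⟩, ?_⟩
      simp only [A, Set.mem_iUnion, Finset.mem_range, Set.mem_setOf_eq]
      refine ⟨b, by omega, ?_⟩
      have : z 1 = v 0 + v (m + 1) := by simp [z]
      rw [this]; exact not_lt.mp hcon
    obtain ⟨b, hb, h⟩ := hk
    have hbm : b = m + 1 := by
      by_contra hne
      linarith [h1 b (by omega)]
    subst hbm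
    refine ⟨m + 1, m + 1, n, le_refl _, hkn, le_refl _, ?_⟩
    rw [hper]
    have h3 : inner ℝ (v (m + 1)) (v 0 + v (m + 1)) = inner ℝ (v (m+1)) (v 0) + 1 := by
      rw [inner_add_right, real_inner_self_eq_norm_sq, hv]; norm_num
    have h4 : inner ℝ (v (m + 1) + v 0) (v 0 + v (m + 1)) = 2 * (inner ℝ (v (m+1)) (v 0) + 1) := by
      rw [inner_add_left, h3, inner_add_right, real_inner_self_eq_norm_sq, hv,
        real_inner_comm (v (m + 1)) (v 0)]
      ring
    rw [h4]; rw [h3] at h
    linarith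

end Pool.Agent.Y717.Bil
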