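import Mathlib
import Pool.Agent.Y717.Bil.D

set_option autoImplicit false

namespace Pool.Agent.Y717.Bil

open scoped BigOperators
open Metric

variable {E : Type*} [NormedAddCommGroup E] [InnerProductSpace ℝ E]

/-- the trajectory condition of the frozen statement -/
def IsTraj (P : Set E) (n : ℕ) (p : Fin n → E) : Prop :=
  2 ≤ n ∧ ∀ i : Fin n,
        p i ∈ frontier P ∧
        p i ≠ p (finRotate n i) ∧
        ((dist (p (finRotate n i)) (p i))⁻¹ • (p (finRotate n i) - p i)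
          + (dist (p ((finRotate n).symm i)) (p i))⁻¹ • (p ((finRotate n).symm i) - p i)) ≠ 0 ∧
        ∀ x ∈ P,
          0 ≤ inner ℝ ((dist (p (finRotate n i)) (p i))⁻¹ • (p (finRotate n i) - p i)
                + (dist (p ((finRotate n).symm i)) (p i))⁻¹ • (p ((finRotate n).symm i) - p i))
               (x - p i)

theorem isClosed_BP {S : Finset E} : IsClosed (BP S) := by
  unfold BP
  exact isClosed_biInter (fun c _ => isClosed_closedBall)

theorem mem_frontier_BP {S : Finset E} {c x : E} (hc : c ∈ S) (hx : x ∈ BP S)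
    (h : ‖x - c‖ = 1) : x ∈ frontier (BP S) := by
  rw [isClosed_BP.frontier_eq]
  refine ⟨hx, ?_⟩
  intro hi
  have h1 : BP S ⊆ closedBall c 1 := by
    intro x hx
    rw [mem_closedBall, dist_eq_norm]
    exact mem_BP.mp hx c hc
  have h2 := interior_mono h1 hi
  rw [interior_closedBall c one_ne_zero, mem_ball, dist_eq_norm, h] at h2
  exact lt_irrefl _ h2

theorem two_periodic {S : Finset E} {δ : ℝ} (hδ0 : 0 ≤ δ)
    (hδ1 : δ ≤ 1) (hS : ∀ c ∈ S, ∀ c' ∈ S, ‖c - c'‖ ≤ δ) {c₁ c₂ e : E} (h1 : c₁ ∈ S) (h2 : c₂ ∈ S)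
    (he : ‖e‖ = 1) (hc : c₂ - c₁ = δ • e) :
    IsTraj (BP S) 2 ![c₂ - e, c₁ + e] ∧
    ∑ j, dist ((![c₂ - e, c₁ + e] : Fin 2 → E) j)
      ((![c₂ - e, c₁ + e] : Fin 2 → E) (finRotate 2 j)) = 4 - 2 * δ := by
  have r0 : finRotate 2 0 = 1 := by decide
  have r1 : finRotate 2 1 = 0 := by decide
  have s0 : (finRotate 2).symm 0 = 1 := by decide
  have s1 : (finRotate 2).symm 1 = 0 := by decide
  have hab : (c₁ + e) - (c₂ - e) = (2 - δ) • e := by
    rw [sub_smul, ← hc, two_smul]; abel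
  have hba : (c₂ - e) - (c₁ + e) = -((2 - δ) • e) := by
    rw [← hab]; abel
  have hδ2 : 0 < 2 - δ := by linarith
  have hn : ‖(c₁ + e) - (c₂ - e)‖ = 2 - δ := by
    rw [hab, norm_smul, he, mul_one, Real.norm_eq_abs, abs_of_pos hδ2]
  have hn' : ‖(c₂ - e) - (c₁ + e)‖ = 2 - δ := by
    rw [norm_sub_rev, hn]
  have ha : c₂ - e ∈ BP S := by
    rw [mem_BP]; intro c hcS
    have hrw : c₂ - e - c = (c₁ - c) + (-(1 - δ)) • e := by
      have : c₂ = c₁ + δ • e := by rw [← hc]; abel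
      rw [this, neg_smul, sub_smul, one_smul]; abel
    rw [hrw]
    calc ‖(c₁ - c) + (-(1 - δ)) • e‖ ≤ ‖c₁ - c‖ + ‖(-(1 - δ)) • e‖ := norm_add_le _ _
      _ ≤ δ + (1 - δ) := by
        have h3 : ‖(-(1 - δ)) • e‖ = 1 - δ := by
          rw [norm_smul, he, mul_one, norm_neg, Real.norm_eq_abs, abs_of_nonneg (by linarith)]
        linarith [hS c₁ h1 c hcS]
      _ = 1 := by ring
  have hb : c₁ + e ∈ BP S := by
    rw [mem_BP]; intro c hcS
    have hrw : c₁ + e - c = (c₂ - c) + (1 - δ) • e := by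
      have : c₂ = c₁ + δ • e := by rw [← hc]; abel
      rw [this, sub_smul, one_smul]; abel
    rw [hrw]
    calc ‖(c₂ - c) + (1 - δ) • e‖ ≤ ‖c₂ - c‖ + ‖(1 - δ) • e‖ := norm_add_le _ _
      _ ≤ δ + (1 - δ) := by
        have h3 : ‖(1 - δ) • e‖ = 1 - δ := by
          rw [norm_smul, he, mul_one, Real.norm_eq_abs, abs_of_nonneg (by linarith)]
        linarith [hS c₂ h2 c hcS]
      _ = 1 := by ring
  have hne : c₂ - e ≠ c₁ + e := by
    intro h
    rw [h, sub_self, norm_zero] at hn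
    linarith
  have hv : (2 - δ)⁻¹ • ((2 - δ) • e) = e := by
    rw [smul_smul, inv_mul_cancel₀ hδ2.ne', one_smul]
  have he0 : e ≠ 0 := by
    intro h; rw [h, norm_zero] at he; norm_num at he
  have hee : e + e ≠ 0 := by
    rw [← two_smul ℝ]; exact smul_ne_zero two_ne_zero he0
  refine ⟨⟨le_refl _, ?_⟩, ?_⟩
  · rw [Fin.forall_fin_two]
    rw [r0, r1, s0, s1]
    simp only [Matrix.cons_val_zero, Matrix.cons_val_one, dist_eq_norm]
    rw [hn, hn', hab, hba, smul_neg, hv]
    refine ⟨⟨?_, hne, hee, ?_⟩, ⟨?_, hne.symm, ?_, ?_⟩⟩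
    · apply mem_frontier_BP h2 ha
      have : c₂ - e - c₂ = -e := by abel
      rw [this, norm_neg, he]
    · intro x hx
      have h3 := mem_BP.mp hx c₂ h2
      have h4 : inner ℝ (e + e) (x - (c₂ - e)) = 2 * (inner ℝ e (x - c₂) + 1) := by
        have : x - (c₂ - e) = (x - c₂) + e := by abel
        rw [this, inner_add_left, inner_add_right, real_inner_self_eq_norm_sq, he]; ring
      rw [h4]
      have h5 := abs_real_inner_le_norm e (x - c₂)
      rw [he, one_mul] at h5
      have := neg_abs_le (inner ℝ e (x - c₂))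
      linarith
    · apply mem_frontier_BP h1 hb
      have : c₁ + e - c₁ = e := by abel
      rw [this, he]
    · rw [← neg_add]; exact neg_ne_zero.mpr hee
    · intro x hx
      have h3 := mem_BP.mp hx c₁ h1
      have h4 : inner ℝ (-e + -e) (x - (c₁ + e)) = 2 * (1 - inner ℝ e (x - c₁)) := by
        have : x - (c₁ + e) = (x - c₁) - e := by abel
        rw [this, inner_add_left, inner_sub_right, inner_neg_left, inner_neg_left,
          real_inner_self_eq_norm_sq, he]; ring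
      rw [h4]
      have h5 := abs_real_inner_le_norm e (x - c₁)
      rw [he, one_mul] at h5
      have := le_abs_self (inner ℝ e (x - c₁))
      linarith
  · rw [Fin.sum_univ_two, r0, r1]
    simp only [Matrix.cons_val_zero, Matrix.cons_val_one, dist_eq_norm]
    rw [hn, hn']; ring

/-- cyclic index -/
def ix (m k : ℕ) : Fin (m + 1) := ⟨k % (m + 1), Nat.mod_lt _ (Nat.succ_pos m)⟩

theorem traj_of_isTraj {S : Finset E} {m : ℕ} {p : Fin (m + 1) → E} (h : IsTraj (BP S) (m + 1) p) :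
    Traj S (m + 1) (fun k => p (ix m k))
      (fun k => (dist (p (ix m (k + 1))) (p (ix m k)))⁻¹ •
        (p (ix m (k + 1)) - p (ix m k))) ∧
    ∑ i, dist (p i) (p (finRotate (m + 1) i))
      = ∑ k ∈ Finset.range (m + 1), ‖p (ix m (k + 1)) - p (ix m k)‖ := by
  obtain ⟨-, h⟩ := h
  have hrot : ∀ k : ℕ, finRotate (m + 1) (ix m k) = (ix m (k + 1)) := by
    intro k
    rw [finRotate_apply]
    apply Fin.ext
    rw [Fin.val_add]
    simp only [ix]
    rw [Fin.val_one']
    simp [Nat.add_mod]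
  have hsym : ∀ k : ℕ, (finRotate (m + 1)).symm (ix m (k + 1)) = (ix m k) := by
    intro k; rw [← hrot, Equiv.symm_apply_apply]
  have hne : ∀ k : ℕ, p (ix m (k + 1)) ≠ p (ix m k) := by
    intro k
    have := (h (ix m k)).2.1
    rw [hrot] at this
    exact this.symm
  have hpos : ∀ k : ℕ, 0 < ‖p (ix m (k + 1)) - p (ix m k)‖ := fun k =>
    norm_pos_iff.mpr (sub_ne_zero.mpr (hne k))
  have hper : ∀ k : ℕ, (ix m (k + (m + 1))) = (ix m k) := by
    intro k; apply Fin.ext; simp only [ix]; exact Nat.add_mod_right k (m + 1)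
  have hbis : ∀ k : ℕ,
      (dist (p (finRotate (m + 1) (ix m (k + 1)))) (p (ix m (k + 1))))⁻¹ •
        (p (finRotate (m + 1) (ix m (k + 1))) - p (ix m (k + 1)))
      + (dist (p ((finRotate (m + 1)).symm (ix m (k + 1))))
          (p (ix m (k + 1))))⁻¹ •
        (p ((finRotate (m + 1)).symm (ix m (k + 1))) - p (ix m (k + 1)))
      = (dist (p (ix m (k + 1 + 1))) (p (ix m (k + 1))))⁻¹ •
          (p (ix m (k + 1 + 1)) - p (ix m (k + 1)))
        - (dist (p (ix m (k + 1))) (p (ix m k)))⁻¹ •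
          (p (ix m (k + 1)) - p (ix m k)) := by
    intro k
    rw [hrot, hsym, dist_comm (p (ix m k)), ← neg_sub (p (ix m (k + 1))) (p (ix m k)), smul_neg,
      ← sub_eq_add_neg]
  constructor
  · refine ⟨?_, hne, ?_, ?_, ?_, ?_, ?_, ?_⟩
    · intro k
      exact isClosed_BP.frontier_subset (h _).1
    · intro k
      simp only [dist_eq_norm, smul_smul]
      rw [mul_inv_cancel₀ (hpos k).ne', one_smul]
    · intro k
      simp only [dist_eq_norm]
      rw [norm_smul, norm_inv, norm_norm, inv_mul_cancel₀ (hpos k).ne']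
    · have e1 : ix m (m + 1) = ix m 0 := by
        have := hper 0; rwa [Nat.zero_add] at this
      have e2 : ix m (m + 1 + 1) = ix m (0 + 1) := by
        have := hper 1
        rw [show m + 1 + 1 = 1 + (m + 1) by ring, this]
      simp only [e1, e2]
    · have e1 : ix m (m + 1) = ix m 0 := by
        have := hper 0; rwa [Nat.zero_add] at this
      simp only [e1]
    · intro k hk
      have h1 := (h (ix m (k + 1))).2.2.1
      rw [hbis] at h1
      apply h1
      rw [sub_eq_zero]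
      exact hk.symm
    · intro k x hx
      have h1 := (h (ix m (k + 1))).2.2.2 x hx
      rw [hbis] at h1
      show inner ℝ (_ - (dist (p (ix m (k + 1 + 1))) (p (ix m (k + 1))))⁻¹ •
          (p (ix m (k + 1 + 1)) - p (ix m (k + 1)))) x ≤ inner ℝ (_ -
            (dist (p (ix m (k + 1 + 1))) (p (ix m (k + 1))))⁻¹ •
          (p (ix m (k + 1 + 1)) - p (ix m (k + 1)))) (p (ix m (k + 1)))
      set a := (dist (p (ix m (k + 1 + 1))) (p (ix m (k + 1))))⁻¹ •
          (p (ix m (k + 1 + 1)) - p (ix m (k + 1))) with ha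
      set b := (dist (p (ix m (k + 1))) (p (ix m k)))⁻¹ •
          (p (ix m (k + 1)) - p (ix m k)) with hb
      rw [inner_sub_right, inner_sub_left, inner_sub_left] at h1
      rw [inner_sub_left, inner_sub_left]
      linarith
  · rw [Finset.sum_range]
    apply Finset.sum_congr rfl
    intro i _
    have h1 : ix m (i : ℕ) = i := by
      apply Fin.ext; simp only [ix]; exact Nat.mod_eq_of_lt i.2
    have h2 := hrot (i : ℕ)
    rw [h1] at h2
    rw [← h2, h1, dist_comm, dist_eq_norm]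

theorem final [ProperSpace E] [Nontrivial E] {S : Finset E} (hSne : S.Nonempty)
    (hfat : ∀ c ∈ S, ∀ c' ∈ S, dist c c' ≤ 1) {n : ℕ} {p : Fin n → E} (h : IsTraj (BP S) n p)
    (hmin : ∀ m : ℕ, ∀ q : Fin m → E, IsTraj (BP S) m q →
      ∑ i, dist (p i) (p (finRotate n i)) ≤ ∑ j, dist (q j) (q (finRotate m j))) : n = 2 := by
  classical
  by_contra hne
  have hn3 : 3 ≤ n := by
    have := h.1; omega
  obtain ⟨⟨c₁, c₂⟩, hmem, hmax⟩ := Finset.exists_max_image (S ×ˢ S) (fun x => dist x.1 x.2)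
    (hSne.product hSne)
  rw [Finset.mem_product] at hmem
  obtain ⟨h1, h2⟩ := hmem
  simp only at h1 h2 hmax
  set δ : ℝ := dist c₁ c₂ with hδ
  have hδ0 : 0 ≤ δ := dist_nonneg
  have hδ1 : δ ≤ 1 := hfat _ h1 _ h2
  have hS : ∀ c ∈ S, ∀ c' ∈ S, ‖c - c'‖ ≤ δ := by
    intro c hc c' hc'
    rw [← dist_eq_norm]
    exact hmax (c, c') (Finset.mem_product.mpr ⟨hc, hc'⟩)
  have hexe : ∃ e : E, ‖e‖ = 1 ∧ c₂ - c₁ = δ • e := by
    by_cases hz : δ = 0
    · obtain ⟨e, he⟩ := exists_norm_eq E (zero_le_one (α := ℝ))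
      refine ⟨e, he, ?_⟩
      have : c₁ = c₂ := dist_eq_zero.mp hz
      rw [hz, this]; simp
    · refine ⟨δ⁻¹ • (c₂ - c₁), ?_, ?_⟩
      · rw [norm_smul, norm_inv, Real.norm_eq_abs, abs_of_nonneg hδ0, ← dist_eq_norm,
          dist_comm, inv_mul_cancel₀ hz]
      · rw [smul_smul, mul_inv_cancel₀ hz, one_smul]
  obtain ⟨e, he, hce⟩ := hexe
  obtain ⟨ht, hl⟩ := two_periodic hδ0 hδ1 hS h1 h2 he hce
  have h3 := hmin 2 _ ht
  rw [hl] at h3
  obtain ⟨m, rfl⟩ : ∃ m, n = m + 1 := ⟨n - 1, by omega⟩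
  obtain ⟨hT, hsum⟩ := traj_of_isTraj h
  have h4 := main_ineq hSne hδ0 hδ1 hS hn3 hT
  rw [hsum] at h3
  linarith

end Pool.Agent.Y717.Bil
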